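import Mathlib

/-!
Board ghk (MP_52e316_nt): the density of Plancherel's measure against the size, elementary bounds.
-/

set_option autoImplicit false

namespace Pool.Agent.H30.GHK

/-- each factor is at least one -/
lemma fac_ge {m : ℕ} (mu : Fin m → ℂ) (i j : Fin m) :
    (1 : ℝ) ≤ 1 + max 0 ((mu i).im - (mu j).im) := by
  have := le_max_left (0 : ℝ) ((mu i).im - (mu j).im)
  linarith

/-- the density is at least one of its factors -/
lemma pl_fac {m : ℕ} (mu : Fin m → ℂ) (i j : Fin m) :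
    1 + max 0 ((mu i).im - (mu j).im) ≤
      ∏ i : Fin m, ∏ j : Fin m, (1 + max 0 ((mu i).im - (mu j).im)) := by
  have h1 : ∀ i : Fin m, (1 : ℝ) ≤ ∏ j : Fin m, (1 + max 0 ((mu i).im - (mu j).im)) := by
    intro i
    have h := Finset.prod_le_prod (s := Finset.univ) (f := fun _ : Fin m => (1 : ℝ))
      (g := fun j => 1 + max 0 ((mu i).im - (mu j).im)) (fun _ _ => zero_le_one)
      (fun j _ => fac_ge mu i j)
    simpa using h
  have h2 : 1 + max 0 ((mu i).im - (mu j).im) ≤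
      ∏ j : Fin m, (1 + max 0 ((mu i).im - (mu j).im)) := by
    rw [← Finset.mul_prod_erase Finset.univ _ (Finset.mem_univ j)]
    refine le_mul_of_one_le_right (zero_le_one.trans (fac_ge mu i j)) ?_
    have h := Finset.prod_le_prod (s := Finset.univ.erase j) (f := fun _ : Fin m => (1 : ℝ))
      (g := fun j => 1 + max 0 ((mu i).im - (mu j).im)) (fun _ _ => zero_le_one)
      (fun j _ => fac_ge mu i j)
    simpa using h
  refine h2.trans ?_
  rw [← Finset.mul_prod_erase Finset.univ (fun i : Fin m =>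
    ∏ j : Fin m, (1 + max 0 ((mu i).im - (mu j).im))) (Finset.mem_univ i)]
  refine le_mul_of_one_le_right (zero_le_one.trans (h1 i)) ?_
  have h := Finset.prod_le_prod (s := Finset.univ.erase i) (f := fun _ : Fin m => (1 : ℝ))
    (g := fun i => ∏ j : Fin m, (1 + max 0 ((mu i).im - (mu j).im))) (fun _ _ => zero_le_one)
    (fun i _ => h1 i)
  simpa using h

/-- the density is at least `1` -/
lemma pl_ge {m : ℕ} (mu : Fin m → ℂ) :
    (1 : ℝ) ≤ ∏ i : Fin m, ∏ j : Fin m, (1 + max 0 ((mu i).im - (mu j).im)) := by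
  have h1 : ∀ i : Fin m, (1 : ℝ) ≤ ∏ j : Fin m, (1 + max 0 ((mu i).im - (mu j).im)) := by
    intro i
    have h := Finset.prod_le_prod (s := Finset.univ) (f := fun _ : Fin m => (1 : ℝ))
      (g := fun j => 1 + max 0 ((mu i).im - (mu j).im)) (fun _ _ => zero_le_one)
      (fun j _ => fac_ge mu i j)
    simpa using h
  have h := Finset.prod_le_prod (s := Finset.univ) (f := fun _ : Fin m => (1 : ℝ))
    (g := fun i => ∏ j : Fin m, (1 + max 0 ((mu i).im - (mu j).im))) (fun _ _ => zero_le_one)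
    (fun i _ => h1 i)
  simpa using h

open Classical in
/-- number of the ordered pairs -/
lemma pairs_card {m : ℕ} (a : Fin m → ℝ) :
    (Finset.univ.filter fun p : Fin m × Fin m => a p.2 < a p.1).card ≤ m * (m - 1) / 2 := by
  set A := Finset.univ.filter fun p : Fin m × Fin m => a p.2 < a p.1 with hA
  set B := Finset.univ.filter fun p : Fin m × Fin m => a p.1 < a p.2 with hB
  have hAB : A.card = B.card := by
    refine Finset.card_bij (fun p _ => (p.2, p.1)) ?_ ?_ ?_
    · intro p hp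
      rw [hA, Finset.mem_filter] at hp
      rw [hB, Finset.mem_filter]
      exact ⟨Finset.mem_univ _, hp.2⟩
    · intro p _ q _ h
      have h1 := Prod.ext_iff.1 h
      exact Prod.ext h1.2 h1.1
    · intro p hp
      rw [hB, Finset.mem_filter] at hp
      exact ⟨(p.2, p.1), by rw [hA, Finset.mem_filter]; exact ⟨Finset.mem_univ _, hp.2⟩, rfl⟩
  have hdis : Disjoint A B := by
    rw [Finset.disjoint_left]
    intro p hp hq
    rw [hA, Finset.mem_filter] at hp
    rw [hB, Finset.mem_filter] at hq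
    exact lt_asymm hp.2 hq.2
  have hsub : A ∪ B ⊆ (Finset.univ : Finset (Fin m)).offDiag := by
    intro p hp
    rw [Finset.mem_offDiag]
    refine ⟨Finset.mem_univ _, Finset.mem_univ _, ?_⟩
    intro he
    rw [Finset.mem_union, hA, hB, Finset.mem_filter, Finset.mem_filter, he] at hp
    rcases hp with h | h
    · exact lt_irrefl _ h.2
    · exact lt_irrefl _ h.2
  have h1 := Finset.card_le_card hsub
  rw [Finset.card_union_of_disjoint hdis, Finset.offDiag_card, Finset.card_univ,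
    Fintype.card_fin] at h1
  have h2 : m * (m - 1) = m * m - m := by rw [Nat.mul_sub, mul_one]
  rw [h2]
  omega

open Classical in
/-- the density is at most the size to the power `m (m - 1) / 2` -/
lemma pl_le {m : ℕ} (mu : Fin m → ℂ) :
    ∏ i : Fin m, ∏ j : Fin m, (1 + max 0 ((mu i).im - (mu j).im)) ≤
      (1 + ∑ j, ‖mu j‖) ^ (m * (m - 1) / 2) := by
  set Q : ℝ := 1 + ∑ j, ‖mu j‖ with hQ
  have hQ1 : 1 ≤ Q := by
    have : 0 ≤ ∑ j, ‖mu j‖ := Finset.sum_nonneg fun j _ => norm_nonneg _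
    linarith
  have hgap : ∀ i j : Fin m, (mu i).im - (mu j).im ≤ ∑ j, ‖mu j‖ := by
    intro i j
    by_cases hij : i = j
    · rw [hij, sub_self]
      exact Finset.sum_nonneg fun j _ => norm_nonneg _
    · have h1 : (mu i).im - (mu j).im ≤ ‖mu i‖ + ‖mu j‖ := by
        have h2 := Complex.abs_im_le_norm (mu i)
        have h3 := Complex.abs_im_le_norm (mu j)
        have h4 := le_abs_self (mu i).im
        have h5 := neg_abs_le (mu j).im
        linarith
      refine h1.trans ?_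
      have h2 : ∑ k ∈ ({i, j} : Finset (Fin m)), ‖mu k‖ ≤ ∑ k, ‖mu k‖ :=
        Finset.sum_le_sum_of_subset_of_nonneg (Finset.subset_univ _) fun _ _ _ => norm_nonneg _
      rwa [Finset.sum_pair hij] at h2
  have h1 : ∏ i : Fin m, ∏ j : Fin m, (1 + max 0 ((mu i).im - (mu j).im)) ≤
      ∏ i : Fin m, ∏ j : Fin m, (if (mu j).im < (mu i).im then Q else 1) := by
    refine Finset.prod_le_prod (fun i _ => Finset.prod_nonneg fun j _ =>
      zero_le_one.trans (fac_ge mu i j)) fun i _ => ?_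
    refine Finset.prod_le_prod (fun j _ => zero_le_one.trans (fac_ge mu i j)) fun j _ => ?_
    split_ifs with h
    · have := hgap i j
      rw [max_eq_right (by linarith)]
      linarith
    · rw [max_eq_left (by linarith [not_lt.1 h])]
      linarith
  refine h1.trans ?_
  have h2 : ∏ i : Fin m, ∏ j : Fin m, (if (mu j).im < (mu i).im then Q else 1) =
      Q ^ (Finset.univ.filter fun p : Fin m × Fin m => (mu p.2).im < (mu p.1).im).card := by
    rw [← Fintype.prod_prod_type' (f := fun i j : Fin m => if (mu j).im < (mu i).im then Q else 1),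
      Finset.prod_ite, Finset.prod_const, Finset.prod_const_one, mul_one]
  rw [h2]
  exact pow_le_pow_right₀ hQ1 (pairs_card fun i => (mu i).im)

/-- the case `m = 3`: the size against the conductor -/
lemma m3_nat (mu : Fin 3 → ℂ) (h0 : ∑ j, mu j = 0) (hre : ∀ j, |(mu j).re| ≤ 9) :
    1 + ∑ j, ‖mu j‖ ≤ 28 * ∏ i : Fin 3, ∏ j : Fin 3, (1 + max 0 ((mu i).im - (mu j).im)) ∧
    (1 + ∑ j, ‖mu j‖) ^ 2 ≤ 4 * ∏ j, (1 + ‖mu j‖) := by
  set p : ℝ := ∏ i : Fin 3, ∏ j : Fin 3, (1 + max 0 ((mu i).im - (mu j).im)) with hp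
  have hg : ∀ i j : Fin 3, 1 + ((mu i).im - (mu j).im) ≤ p := by
    intro i j
    refine le_trans ?_ (pl_fac mu i j)
    have := le_max_right (0 : ℝ) ((mu i).im - (mu j).im)
    linarith
  have hp1 : 1 ≤ p := pl_ge mu
  rw [Fin.sum_univ_three] at h0
  have hi : (mu 0).im + (mu 1).im + (mu 2).im = 0 := by
    have := congrArg Complex.im h0
    simpa using this
  rw [Fin.sum_univ_three]
  constructor
  · have hn : ∀ j, ‖mu j‖ ≤ 9 + |(mu j).im| := fun j =>
      (Complex.norm_le_abs_re_add_abs_im _).trans (by linarith [hre j])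
    have n0 := hn 0
    have n1 := hn 1
    have n2 := hn 2
    have g01 := hg 0 1
    have g02 := hg 0 2
    have g10 := hg 1 0
    have g12 := hg 1 2
    have g20 := hg 2 0
    have g21 := hg 2 1
    have a0 : |(mu 0).im| ≤ p - 1 := abs_le.2 ⟨by linarith, by linarith⟩
    have a1 : |(mu 1).im| ≤ p - 1 := abs_le.2 ⟨by linarith, by linarith⟩
    have a2 : |(mu 2).im| ≤ p - 1 := abs_le.2 ⟨by linarith, by linarith⟩
    linarith
  · have t0 : ‖mu 0‖ ≤ ‖mu 1‖ + ‖mu 2‖ := by
      have : mu 0 = -(mu 1 + mu 2) := by linear_combination h0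
      rw [this, norm_neg]
      exact norm_add_le _ _
    have t1 : ‖mu 1‖ ≤ ‖mu 0‖ + ‖mu 2‖ := by
      have : mu 1 = -(mu 0 + mu 2) := by linear_combination h0
      rw [this, norm_neg]
      exact norm_add_le _ _
    have t2 : ‖mu 2‖ ≤ ‖mu 0‖ + ‖mu 1‖ := by
      have : mu 2 = -(mu 0 + mu 1) := by linear_combination h0
      rw [this, norm_neg]
      exact norm_add_le _ _
    rw [Fin.prod_univ_three]
    have x0 := norm_nonneg (mu 0)
    have x1 := norm_nonneg (mu 1)
    have x2 := norm_nonneg (mu 2)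
    nlinarith [mul_le_mul_of_nonneg_left t0 x0, mul_le_mul_of_nonneg_left t1 x1,
      mul_le_mul_of_nonneg_left t2 x2, mul_nonneg x0 x1, mul_nonneg x0 x2, mul_nonneg x1 x2,
      mul_nonneg (mul_nonneg x0 x1) x2]

/-- the case `m = 3`: the ordering by the size with the weight is weaker than the ordering by the
conductor -/
theorem m3 : ∃ c : ℝ, 0 < c ∧ ∀ mu : Fin 3 → ℂ, ∑ j, mu j = 0 → (∀ j, |(mu j).re| ≤ 9) →
    ((1 + ∑ j, ‖mu j‖) ^ ((3 : ℝ) ^ 2) /
      ∏ i : Fin 3, ∏ j : Fin 3, (1 + max 0 ((mu i).im - (mu j).im))) ^ (1 / ((3 : ℝ) + 1)) ≤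
      c * ∏ j, (1 + ‖mu j‖) := by
  refine ⟨112, by norm_num, fun mu h0 hre => ?_⟩
  obtain ⟨h1, h2⟩ := m3_nat mu h0 hre
  set p : ℝ := ∏ i : Fin 3, ∏ j : Fin 3, (1 + max 0 ((mu i).im - (mu j).im)) with hp
  set Q : ℝ := 1 + ∑ j, ‖mu j‖ with hQ
  have hp1 : 1 ≤ p := pl_ge mu
  have hQ1 : 1 ≤ Q := by
    have : 0 ≤ ∑ j, ‖mu j‖ := Finset.sum_nonneg fun j _ => norm_nonneg _
    linarith
  have h9 : Q ^ ((3 : ℝ) ^ 2) = Q ^ 9 := by
    rw [show ((3 : ℝ) ^ 2) = ((9 : ℕ) : ℝ) by norm_num, Real.rpow_natCast]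
  rw [h9]
  have h3 : Q ^ 9 / p ≤ (28 * Q ^ 2) ^ 4 := by
    rw [div_le_iff₀ (by linarith)]
    have h4 : Q ^ 9 ≤ 28 * p * Q ^ 8 := by
      have : Q ^ 9 = Q * Q ^ 8 := by ring
      rw [this]
      exact mul_le_mul_of_nonneg_right h1 (by positivity)
    have h5 : (28 * Q ^ 2) ^ 4 * p = 28 * p * Q ^ 8 * 28 ^ 3 := by ring
    rw [h5]
    refine h4.trans ?_
    have h6 : 0 ≤ 28 * p * Q ^ 8 := by positivity
    nlinarith
  have h4 : (Q ^ 9 / p) ^ (1 / ((3 : ℝ) + 1)) ≤ ((28 * Q ^ 2) ^ 4) ^ (1 / ((3 : ℝ) + 1)) :=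
    Real.rpow_le_rpow (by positivity) h3 (by norm_num)
  have h5 : ((28 * Q ^ 2) ^ 4) ^ (1 / ((3 : ℝ) + 1)) = 28 * Q ^ 2 := by
    rw [← Real.rpow_natCast, ← Real.rpow_mul (by positivity)]
    norm_num
  rw [h5] at h4
  linarith

end Pool.Agent.H30.GHK
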